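import Pool.Agent.Work.MP_a6e60d_ag.Num.Class

/-!
MP_a6e60d_ag, Theorem B, instantiation 1: objects of an abelian category as objects of the
derived category; division objects and orthogonality from Hom and Ext.
-/

open CategoryTheory Category Limits Pretriangulated Module ZeroObject Abelian DerivedCategory

set_option linter.unusedSectionVars false

attribute [-instance] CategoryTheory.catToReflQuiver

namespace OrlNum

universe w w' v u

section

variable {B : Type u} [Category.{v} B] [Abelian B] [HasExt.{w} B] [HasDerivedCategory.{w'} B]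

/-- an object in degree zero -/
noncomputable abbrev sg (X : B) : DerivedCategory B := (singleFunctor B 0).obj X

theorem sg_neg_eq_zero (X Y : B) (m : ℤ) (hm : m < 0) (f : sg X ⟶ (sg Y)⟦m⟧) : f = 0 := by
  have h1 : TStructure.t.IsGE ((sg Y)⟦m⟧) (-m) :=
    TStructure.t.isGE_shift (sg Y) 0 m (-m)
  exact TStructure.t.zero f 0 (-m)

theorem sg_nonneg_eq_zero (X Y : B) (n : ℕ) (h : Subsingleton (Ext X Y n))
    (f : sg X ⟶ (sg Y)⟦(n : ℤ)⟧) : f = 0 := by
  have h1 : Subsingleton (sg X ⟶ (sg Y)⟦(n : ℤ)⟧) :=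
    (Ext.homEquiv (X := X) (Y := Y) (n := n)).symm.subsingleton
  exact Subsingleton.elim _ _

theorem sg_eq_zero (X Y : B) (m : ℤ) (h : ∀ n : ℕ, (n : ℤ) = m → Subsingleton (Ext X Y n))
    (f : sg X ⟶ (sg Y)⟦m⟧) : f = 0 := by
  rcases lt_or_ge m 0 with hm | hm
  · exact sg_neg_eq_zero X Y m hm f
  · obtain ⟨n, rfl⟩ := Int.eq_ofNat_of_zero_le hm
    exact sg_nonneg_eq_zero X Y n (h n rfl) f

/-- no maps and no Ext: orthogonal in all degrees -/
theorem orth_sg (X Y : B) (h0 : ∀ f : X ⟶ Y, f = 0)
    (h : ∀ n : ℕ, 0 < n → Subsingleton (Ext X Y n)) : Orth (sg X) (sg Y) := by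
  refine orth_of_target fun m f => sg_eq_zero X Y m (fun n hn => ?_) f
  rcases Nat.eq_zero_or_pos n with rfl | hpos
  · have : Subsingleton (X ⟶ Y) := ⟨fun a b => by rw [h0 a, h0 b]⟩
    exact Ext.homEquiv₀.subsingleton
  · exact h n hpos

/-- an object with division endomorphism ring and without self-extensions -/
theorem divn_sg (X : B) (h0 : ∀ f : X ⟶ X, f ≠ 0 → IsIso f)
    (h : ∀ n : ℕ, 0 < n → Subsingleton (Ext X X n)) : Divn (sg X) where
  iso f hf := by
    obtain ⟨g, rfl⟩ := (singleFunctor B 0).map_surjective f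
    have : g ≠ 0 := by
      rintro rfl
      exact hf ((singleFunctor B 0).map_zero _ _)
    have := h0 g this
    infer_instance
  shift := noShift_of_target fun m hm f => sg_eq_zero X X m (fun n hn => h n (by omega)) f

theorem not_isZero_sg (X : B) (h : ¬ IsZero X) : ¬ IsZero (sg X) := by
  intro h0
  apply h
  rw [IsZero.iff_id_eq_zero] at h0 ⊢
  apply (singleFunctor B 0).map_injective
  rw [CategoryTheory.Functor.map_id, h0, CategoryTheory.Functor.map_zero]

/-- the dimension of the endomorphisms -/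
theorem finrank_sg (F : Type*) [Field F] [Linear F B] (X Y : B) :
    finrank F (sg X ⟶ sg Y) = finrank F (X ⟶ Y) := by
  let e : (X ⟶ Y) ≃ₗ[F] (sg X ⟶ sg Y) :=
    LinearEquiv.ofBijective ((singleFunctor B 0).mapLinearMap F)
      ⟨(singleFunctor B 0).map_injective, (singleFunctor B 0).map_surjective⟩
  exact e.finrank_eq.symm

end

end OrlNum
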