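import Mathlib

/-!
MP_a6e60d_ag, Theorem B, instantiation 2: the relation `[B] + [τ B] ∈ 3 K_0` from the
bicartesian squares of the modules `M_I(a)`.
-/

namespace OrlNum

/-- Let `c(I, a)` be elements of an abelian group, `I ⊆ {0, 1, 2, 3}`, with the square relations
(vv) `c(I) + c(I+i+j) = c(I+i) + c(I+j)` and
(uv) `c(I+i, a) + c(I+j, a-1) = c(I, a) + c(I+i+j, a-1)`, with equal values for
`{0}, {1}, {2}` at `a = 0`, divisible by 3 for `I = ∅` and `I = {3}`.
Then `c({0}, 0) + c({1, 2, 3}, -1)` is divisible by 3. -/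
theorem rel_three {A : Type*} [AddCommGroup A] (c : Finset (Fin 4) → ℤ → A)
    (vv : ∀ (I : Finset (Fin 4)) (i j : Fin 4) (a : ℤ), i ∉ I → j ∉ I → i ≠ j →
      c I a + c (insert i (insert j I)) a = c (insert i I) a + c (insert j I) a)
    (uv : ∀ (I : Finset (Fin 4)) (i j : Fin 4) (a : ℤ), i ∉ I → j ∉ I → i ≠ j →
      c (insert i I) a + c (insert j I) (a - 1) = c I a + c (insert i (insert j I)) (a - 1))
    (h1 : c {1} 0 = c {0} 0) (h2 : c {2} 0 = c {0} 0)
    (h3 : ∀ a, ∃ y, c ∅ a = 3 • y) (h4 : ∃ y, c {3} 0 = 3 • y) :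
    ∃ y : A, c {0} 0 + c {1, 2, 3} (-1) = 3 • y := by
  obtain ⟨n, hn⟩ := h3 0
  obtain ⟨n', hn'⟩ := h3 (-1)
  obtain ⟨m, hm⟩ := h4
  have e1 := vv ∅ 1 2 0 (by decide) (by decide) (by decide)
  have d3 := uv {1} 2 3 0 (by decide) (by decide) (by decide)
  have d4 := uv ∅ 1 3 0 (by decide) (by decide) (by decide)
  have d5 := uv ∅ 3 1 0 (by decide) (by decide) (by decide)
  have d6 := vv ∅ 1 3 (-1) (by decide) (by decide) (by decide)
  rw [show (insert 1 (insert 2 ∅) : Finset (Fin 4)) = {1, 2} by decide,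
    show (insert 1 ∅ : Finset (Fin 4)) = {1} by decide,
    show (insert 2 ∅ : Finset (Fin 4)) = {2} by decide, h1, h2, hn] at e1
  rw [show (insert 2 {1} : Finset (Fin 4)) = {1, 2} by decide,
    show (insert 3 {1} : Finset (Fin 4)) = {1, 3} by decide,
    show (insert 2 {1, 3} : Finset (Fin 4)) = {1, 2, 3} by decide, h1,
    show (0 : ℤ) - 1 = -1 by norm_num] at d3
  rw [show (insert 1 (insert 3 ∅) : Finset (Fin 4)) = {1, 3} by decide,
    show (insert 1 ∅ : Finset (Fin 4)) = {1} by decide,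
    show (insert 3 ∅ : Finset (Fin 4)) = {3} by decide, h1, hn,
    show (0 : ℤ) - 1 = -1 by norm_num] at d4
  rw [show (insert 3 (insert 1 ∅) : Finset (Fin 4)) = {1, 3} by decide,
    show (insert 1 ∅ : Finset (Fin 4)) = {1} by decide,
    show (insert 3 ∅ : Finset (Fin 4)) = {3} by decide, hm, hn,
    show (0 : ℤ) - 1 = -1 by norm_num] at d5
  rw [show (insert 1 (insert 3 ∅) : Finset (Fin 4)) = {1, 3} by decide,
    show (insert 1 ∅ : Finset (Fin 4)) = {1} by decide,
    show (insert 3 ∅ : Finset (Fin 4)) = {3} by decide, hn'] at d6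
  generalize c {0} 0 = x at *
  generalize c {1, 2, 3} (-1) = t at *
  generalize c {1, 3} (-1) = p at *
  generalize c {3} (-1) = q at *
  generalize c {1} (-1) = r at *
  generalize c {1, 2} 0 = z at *
  have hz : z = x + x - 3 • n := by rw [← e1]; abel
  have hp : p = x + q - 3 • n := by rw [d4]; abel
  have hr : r = 3 • n + p - 3 • m := by rw [← d5]; abel
  have hq : q = 3 • n' + p - r := by rw [d6]; abel
  have ht : t = z + p - x := by rw [d3]; abel
  have hq' : q = 3 • n' - 3 • n + 3 • m := by rw [hq, hr]; abel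
  refine ⟨x + m + n' - n - n - n, ?_⟩
  rw [ht, hz, hp, hq']
  simp only [smul_add, smul_sub]
  abel

end OrlNum
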