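import Pool.Agent.Work.MP_a6e60d_ag.Semi.K0
import Pool.Agent.Work.MP_a6e60d_ag.BI.Single
import Pool.Agent.Work.MP_a6e60d_ag.BI.Rel
import Pool.Agent.Work.MP_a6e60d_ag.Q.Gen

/-!
MP_a6e60d_ag, Theorem B, instantiation 4: classes in the Grothendieck group of a triangulated
subcategory of the derived category from short exact sequences and bicartesian squares.
-/

open CategoryTheory Category Limits Pretriangulated Module ZeroObject DerivedCategory

set_option linter.unusedSectionVars false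

attribute [-instance] CategoryTheory.catToReflQuiver

namespace OrlNum

open Orl Orl.Q

universe w w' v u v' u'

section

variable {T : Type u} [Category.{v} T] [Preadditive T] [HasZeroObject T] [HasShift T ℤ]
  [∀ n : ℤ, (shiftFunctor T n).Additive] [Pretriangulated T] (P : ObjectProperty T)
  [P.IsTriangulated]

/-- a distinguished triangle whose vertices are in the subcategory gives a relation -/
theorem cls_sub_tri (t : Triangle T) (ht : t ∈ distTriang T) (h1 : P t.obj₁) (h2 : P t.obj₂)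
    (h3 : P t.obj₃) : cls (⟨t.obj₂, h2⟩ : P.FullSubcategory) =
      cls (⟨t.obj₁, h1⟩ : P.FullSubcategory) + cls (⟨t.obj₃, h3⟩ : P.FullSubcategory) := by
  let t' : Triangle P.FullSubcategory := Triangle.mk (X := ⟨t.obj₁, h1⟩) (Y := ⟨t.obj₂, h2⟩)
    (Z := ⟨t.obj₃, h3⟩) (ObjectProperty.homMk t.mor₁) (ObjectProperty.homMk t.mor₂)
    (P.fullyFaithfulι.preimage (t.mor₃ ≫
      (P.ι.commShiftIso (1 : ℤ)).inv.app (⟨t.obj₁, h1⟩ : P.FullSubcategory)))
  have h : t' ∈ distTriang P.FullSubcategory := by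
    refine isomorphic_distinguished _ ht (P.ι.mapTriangle.obj t')
      (Triangle.isoMk _ _ (Iso.refl _) (Iso.refl _) (Iso.refl _) ?_ ?_ ?_)
    · change t.mor₁ ≫ 𝟙 _ = 𝟙 _ ≫ t.mor₁
      simp
    · change t.mor₂ ≫ 𝟙 _ = 𝟙 _ ≫ t.mor₂
      simp
    · change ((t.mor₃ ≫
        (P.ι.commShiftIso (1 : ℤ)).inv.app (⟨t.obj₁, h1⟩ : P.FullSubcategory)) ≫
        (P.ι.commShiftIso (1 : ℤ)).hom.app (⟨t.obj₁, h1⟩ : P.FullSubcategory)) ≫
          (𝟙 t.obj₁)⟦(1 : ℤ)⟧' = 𝟙 t.obj₃ ≫ t.mor₃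
      rw [id_comp, assoc, assoc]
      have e := (P.ι.commShiftIso (1 : ℤ)).inv_hom_id_app (⟨t.obj₁, h1⟩ : P.FullSubcategory)
      have e1 : (𝟙 t.obj₁)⟦(1 : ℤ)⟧' = 𝟙 (t.obj₁⟦(1 : ℤ)⟧) := (shiftFunctor T (1 : ℤ)).map_id _
      have e2 : (P.ι.commShiftIso (1 : ℤ)).inv.app (⟨t.obj₁, h1⟩ : P.FullSubcategory) ≫
          (P.ι.commShiftIso (1 : ℤ)).hom.app (⟨t.obj₁, h1⟩ : P.FullSubcategory) ≫
          (𝟙 t.obj₁)⟦(1 : ℤ)⟧' = 𝟙 (t.obj₁⟦(1 : ℤ)⟧) := by
        rw [e1]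
        refine Eq.trans ?_ e
        exact congrArg (fun x => (P.ι.commShiftIso (1 : ℤ)).inv.app
          (⟨t.obj₁, h1⟩ : P.FullSubcategory) ≫ x) (comp_id _)
      exact (congrArg (fun x => t.mor₃ ≫ x) e2).trans (comp_id _)
  exact cls_tri t' h

end

section Cls

variable {B : Type u} [Category.{v} B] [Abelian B] [HasDerivedCategory.{w} B]
  (S : ObjectProperty (DerivedCategory B)) [S.IsTriangulated] [S.IsStableUnderRetracts]

/-- the class of an object of the abelian category -/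
noncomputable def kc (X : B) (h : S (sg X)) : K0 S.FullSubcategory :=
  cls (⟨sg X, h⟩ : S.FullSubcategory)

theorem kc_ses {E : ShortComplex B} (hE : E.ShortExact) (h1 : S (sg E.X₁)) (h2 : S (sg E.X₂))
    (h3 : S (sg E.X₃)) : kc S E.X₂ h2 = kc S E.X₁ h1 + kc S E.X₃ h3 :=
  cls_sub_tri S _ hE.singleTriangle_distinguished h1 h2 h3

theorem kc_iso {X Y : B} (e : X ≅ Y) (hX : S (sg X)) (hY : S (sg Y)) : kc S X hX = kc S Y hY :=
  cls_iso (S.isoMk ((singleFunctor B 0).mapIso e))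

theorem kc_biprod (X Y : B) (hX : S (sg X)) (hY : S (sg Y)) (h : S (sg (X ⊞ Y))) :
    kc S (X ⊞ Y) h = kc S X hX + kc S Y hY :=
  kc_ses S (E := ShortComplex.mk (biprod.inl : X ⟶ X ⊞ Y) biprod.snd (by simp))
    (ShortComplex.Splitting.shortExact
      { r := biprod.fst
        s := biprod.inr
        id := by simp }) hX h hY

theorem sg_biprod {X Y : B} (hX : S (sg X)) (hY : S (sg Y)) : S (sg (X ⊞ Y)) :=
  (Thk.ofDerived S).biprod hX hY

theorem kc_sq {N M₁ M₂ M : B} (h : Sq N M₁ M₂ M) (hN : S (sg N)) (h1 : S (sg M₁))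
    (h2 : S (sg M₂)) (hM : S (sg M)) : kc S N hN + kc S M hM = kc S M₁ h1 + kc S M₂ h2 := by
  obtain ⟨a, b, w, hE⟩ := h
  rw [← kc_biprod S M₁ M₂ h1 h2 (sg_biprod S h1 h2)]
  exact (kc_ses S hE hN (sg_biprod S h1 h2) hM).symm

/-- three copies -/
theorem kc_three {X Y : B} (e : Y ≅ X ⊞ (X ⊞ X)) (hX : S (sg X)) (hY : S (sg Y)) :
    kc S Y hY = (3 : ℕ) • kc S X hX := by
  have h2 := sg_biprod S hX hX
  rw [kc_iso S e hY (sg_biprod S hX h2), kc_biprod S _ _ hX h2, kc_biprod S _ _ hX hX]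
  abel

end Cls

section Sqs

variable {CK : Type u'} [Category.{v'} CK] [Abelian CK] {B : Type u} [Category.{v} B] [Abelian B]

/-- an exact functor preserves squares -/
theorem Sq.map' (res : CK ⥤ B) [res.Additive] [PreservesFiniteLimits res]
    [PreservesFiniteColimits res] {N M₁ M₂ M : CK} (h : Sq N M₁ M₂ M) :
    Sq (res.obj N) (res.obj M₁) (res.obj M₂) (res.obj M) := by
  obtain ⟨a, b, w, hE⟩ := h
  have h1 := hE.map_of_exact res
  have : PreservesBinaryBiproducts res := preservesBinaryBiproducts_of_preservesBiproducts res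
  let e : res.obj (M₁ ⊞ M₂) ≅ res.obj M₁ ⊞ res.obj M₂ := res.mapBiprod M₁ M₂
  refine ⟨res.map a ≫ e.hom, e.inv ≫ res.map b, ?_, ?_⟩
  · rw [assoc, e.hom_inv_id_assoc, ← res.map_comp, w, res.map_zero]
  · refine ShortComplex.shortExact_of_iso (ShortComplex.isoMk
      (S₁ := (ShortComplex.mk a b w).map res) (Iso.refl _) e (Iso.refl _) ?_ ?_) h1
    · change 𝟙 _ ≫ res.map a ≫ e.hom = res.map a ≫ e.hom
      rw [id_comp]
    · change e.hom ≫ e.inv ≫ res.map b = res.map b ≫ 𝟙 _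
      rw [e.hom_inv_id_assoc, comp_id]

variable [HasDerivedCategory.{w} B] (S : ObjectProperty (DerivedCategory B)) [S.IsTriangulated]
  [S.IsStableUnderRetracts] (res : CK ⥤ B) [res.Additive] [PreservesFiniteLimits res]
  [PreservesFiniteColimits res] {M : Finset (Fin 4) → ℤ → CK}

/-- The relation of Theorem B. -/
theorem kc_rel (hM : SqData M) (hS : ∀ I a, S (sg (res.obj (M I a))))
    (h1 : Nonempty (res.obj (M {1} 0) ≅ res.obj (M {0} 0)))
    (h2 : Nonempty (res.obj (M {2} 0) ≅ res.obj (M {0} 0)))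
    (h3 : ∀ a, ∃ X : B, Nonempty (res.obj (M ∅ a) ≅ X ⊞ (X ⊞ X)))
    (h4 : ∃ X : B, Nonempty (res.obj (M {3} 0) ≅ X ⊞ (X ⊞ X)))
    {X : B} (hX : S (sg X)) (e : Nonempty (X ≅ res.obj (M {1, 2, 3} (-1)))) :
    ∃ y : K0 S.FullSubcategory, kc S _ (hS {0} 0) + kc S X hX = (3 : ℤ) • y := by
  obtain ⟨e⟩ := e
  have hthree : ∀ {Y : B} (hY : S (sg Y)), (∃ X : B, Nonempty (Y ≅ X ⊞ (X ⊞ X))) →
      ∃ y, kc S Y hY = (3 : ℕ) • y := by
    rintro Y hY ⟨X, ⟨e⟩⟩
    have hX : S (sg X) := (Thk.ofDerived S).biprod_left ((Thk.ofDerived S).iso e hY)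
    exact ⟨_, kc_three S e hX hY⟩
  obtain ⟨y, hy⟩ := rel_three (fun I a => kc S _ (hS I a))
    (fun I i j a hi hj hij => by
      exact kc_sq S (Sq.map' res (hM.vv I i j a hi hj hij)) _ _ _ _)
    (fun I i j a hi hj hij => by
      have h := hM.uv (insert i I) i j a (Finset.mem_insert_self _ _)
        (by simp [hj, hij.symm])
      rw [Finset.erase_insert hi] at h
      have h' := kc_sq S (Sq.map' res h) (hS _ _) (hS _ _) (hS _ _) (hS _ _)
      rw [Finset.insert_comm] at h'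
      rw [add_comm] at h'
      exact h')
    (by obtain ⟨e1⟩ := h1; exact kc_iso S e1 _ _)
    (by obtain ⟨e2⟩ := h2; exact kc_iso S e2 _ _)
    (fun a => hthree _ (h3 a)) (hthree _ h4)
  refine ⟨y, ?_⟩
  rw [kc_iso S e hX (hS _ _)]
  exact hy.trans (by
    show (3 : ℕ) • y = (3 : ℤ) • y
    rw [← natCast_zsmul]
    rfl)

end Sqs

end OrlNum
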