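import Pool.Agent.Work.MP_a6e60d_ag.Num.Class

/-!
MP_a6e60d_ag, Theorem B, instantiation 3: the thick closure of a family of objects of a
triangulated category; finite dimensional total Hom spaces pass from the family to the closure.
-/

open CategoryTheory Category Limits Pretriangulated Module ZeroObject

set_option linter.unusedSectionVars false

attribute [-instance] CategoryTheory.catToReflQuiver

namespace OrlNum

universe w v u v' u'

section

variable {T : Type u} [Category.{v} T] [Preadditive T] [HasZeroObject T] [HasShift T ℤ]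
  [∀ n : ℤ, (shiftFunctor T n).Additive] [Pretriangulated T]

/-- the thick closure of a family of objects -/
def thickOf {ι : Type*} (G : ι → T) : ObjectProperty T := fun X =>
  ∀ Q : ObjectProperty T, Q.IsTriangulated → Q.IsStableUnderRetracts → (∀ i, Q (G i)) → Q X

variable {ι : Type*} (G : ι → T)

theorem thickOf_mem (i : ι) : thickOf G (G i) := fun _ _ _ h => h i

theorem thickOf_le (Q : ObjectProperty T) [h1 : Q.IsTriangulated] [h2 : Q.IsStableUnderRetracts]
    (h : ∀ i, Q (G i)) : thickOf G ≤ Q := fun _ hX => hX Q h1 h2 h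

instance : (thickOf G).IsStableUnderRetracts where
  of_retract r h Q h1 h2 h3 := Q.prop_of_retract r (h Q h1 h2 h3)

instance : (thickOf G).IsTriangulated where
  exists_zero := ⟨0, isZero_zero T, fun Q _ _ _ => Q.prop_of_isZero (isZero_zero T)⟩
  isStableUnderShiftBy n := ⟨fun _ hX Q h1 h2 h3 => Q.le_shift n _ (hX Q h1 h2 h3)⟩
  toIsTriangulatedClosed₂ := ObjectProperty.IsTriangulatedClosed₂.mk' fun t ht hX hY Q h1 h2 h3 =>
    Q.ext_of_isTriangulatedClosed₂ t ht (hX Q h1 h2 h3) (hY Q h1 h2 h3)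

end

section Fin

variable (k : Type w) [Field k] {T : Type u} [Category.{v} T] [Preadditive T] [HasZeroObject T]
  [HasShift T ℤ] [∀ n : ℤ, (shiftFunctor T n).Additive] [Pretriangulated T] [Linear k T]

/-- the total Hom space is finite dimensional -/
def FinHom (X Y : T) : Prop :=
  (∀ m : ℤ, Module.Finite k (X⟦m⟧ ⟶ Y)) ∧ ∃ N : ℕ, ∀ m : ℤ, N < m.natAbs → ∀ f : X⟦m⟧ ⟶ Y, f = 0

variable {k}

theorem finHom_retract₁ {X X' Y : T} (r : Retract X X') (h : FinHom k X' Y) : FinHom k X Y := by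
  obtain ⟨h1, N, h2⟩ := h
  refine ⟨fun m => ?_, N, fun m hm f => ?_⟩
  · have := h1 m
    refine Module.Finite.of_surjective (Linear.leftComp k Y (r.i⟦m⟧')) fun f => ?_
    refine ⟨r.r⟦m⟧' ≫ f, ?_⟩
    change r.i⟦m⟧' ≫ r.r⟦m⟧' ≫ f = f
    rw [← assoc, ← Functor.map_comp, r.retract, CategoryTheory.Functor.map_id, id_comp]
  · have h3 := h2 m hm (r.r⟦m⟧' ≫ f)
    have h4 : f = r.i⟦m⟧' ≫ r.r⟦m⟧' ≫ f := by
      rw [← assoc, ← Functor.map_comp, r.retract, CategoryTheory.Functor.map_id, id_comp]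
    rw [h4, h3, comp_zero]

theorem finHom_retract₂ {X Y Y' : T} (r : Retract Y Y') (h : FinHom k X Y') : FinHom k X Y := by
  obtain ⟨h1, N, h2⟩ := h
  refine ⟨fun m => ?_, N, fun m hm f => ?_⟩
  · have := h1 m
    refine Module.Finite.of_surjective (Linear.rightComp k (X⟦m⟧) r.r) fun f => ?_
    refine ⟨f ≫ r.i, ?_⟩
    change (f ≫ r.i) ≫ r.r = f
    rw [assoc, r.retract, comp_id]
  · have h3 := h2 m hm (f ≫ r.i)
    have h4 : f = (f ≫ r.i) ≫ r.r := by rw [assoc, r.retract, comp_id]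
    rw [h4, h3, zero_comp]

theorem finHom_shift₁ [∀ n : ℤ, (shiftFunctor T n).Linear k] {X Y : T} (h : FinHom k X Y) (n : ℤ) :
    FinHom k (X⟦n⟧) Y := by
  obtain ⟨h1, N, h2⟩ := h
  refine ⟨fun m => ?_, N + n.natAbs, fun m hm f => ?_⟩
  · have := h1 (n + m)
    exact Module.Finite.of_surjective (Linear.leftComp k Y ((shiftFunctorAdd T n m).inv.app X))
      fun f => ⟨(shiftFunctorAdd T n m).hom.app X ≫ f, by
        change (shiftFunctorAdd T n m).inv.app X ≫ (shiftFunctorAdd T n m).hom.app X ≫ f = f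
        simp⟩
  · have h3 := h2 (n + m) (by omega) ((shiftFunctorAdd T n m).hom.app X ≫ f)
    rw [← cancel_epi ((shiftFunctorAdd T n m).hom.app X), h3, comp_zero]

theorem finHom_shift₂ [∀ n : ℤ, (shiftFunctor T n).Linear k] {X Y : T} (h : FinHom k X Y) (n : ℤ) :
    FinHom k X (Y⟦n⟧) := by
  obtain ⟨h1, N, h2⟩ := h
  have key : ∀ m : ℤ, ∀ f : X⟦m⟧ ⟶ Y⟦n⟧, ∃ g : X⟦m - n⟧ ⟶ Y,
      f = (shiftFunctorAdd' T (m - n) n m (by ring)).hom.app X ≫ g⟦n⟧' := by
    intro m f
    obtain ⟨g, hg⟩ := (shiftFunctor T n).map_surjective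
      ((shiftFunctorAdd' T (m - n) n m (by ring)).inv.app X ≫ f)
    exact ⟨g, by rw [hg]; simp⟩
  refine ⟨fun m => ?_, N + n.natAbs, fun m hm f => ?_⟩
  · have := h1 (m - n)
    refine Module.Finite.of_surjective ((Linear.leftComp k (Y⟦n⟧)
      ((shiftFunctorAdd' T (m - n) n m (by ring)).hom.app X)).comp
        ((shiftFunctor T n).mapLinearMap k (X := X⟦m - n⟧) (Y := Y))) fun f => ?_
    obtain ⟨g, hg⟩ := key m f
    exact ⟨g, hg.symm⟩
  · obtain ⟨g, hg⟩ := key m f
    rw [hg, h2 (m - n) (by omega) g, (shiftFunctor T n).map_zero, comp_zero]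

theorem finite_of_exact {V₁ V₂ V₃ : Type*} [AddCommGroup V₁] [AddCommGroup V₂] [AddCommGroup V₃]
    [Module k V₁] [Module k V₂] [Module k V₃] [Module.Finite k V₁] [Module.Finite k V₃]
    (a : V₁ →ₗ[k] V₂) (b : V₂ →ₗ[k] V₃) (h : ∀ x, b x = 0 → ∃ y, a y = x) : Module.Finite k V₂ := by
  have h1 : Module.Finite k (LinearMap.range b) := inferInstance
  have h2 : Module.Finite k (LinearMap.ker b) :=
    Submodule.finiteDimensional_of_le (show LinearMap.ker b ≤ LinearMap.range a from
      fun x hx => h x hx)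
  have : Module.Finite k (V₂ ⧸ LinearMap.ker b) :=
    Module.Finite.equiv b.quotKerEquivRange.symm
  exact Module.Finite.of_submodule_quotient (LinearMap.ker b)

theorem finHom_mid₁ {Y : T} (t : Triangle T) (ht : t ∈ distTriang T) (h1 : FinHom k t.obj₁ Y)
    (h3 : FinHom k t.obj₃ Y) : FinHom k t.obj₂ Y := by
  obtain ⟨a1, N1, b1⟩ := h1
  obtain ⟨a3, N3, b3⟩ := h3
  refine ⟨fun m => ?_, max N1 N3, fun m hm f => ?_⟩
  · have i1 : Module.Finite k (((Triangle.shiftFunctor T m).obj t).obj₁ ⟶ Y) := a1 m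
    have i3 : Module.Finite k (((Triangle.shiftFunctor T m).obj t).obj₃ ⟶ Y) := a3 m
    have ht' := Triangle.shift_distinguished t ht m
    refine finite_of_exact (Linear.leftComp k Y (((Triangle.shiftFunctor T m).obj t).mor₂))
      (Linear.leftComp k Y (((Triangle.shiftFunctor T m).obj t).mor₁)) fun f hf => ?_
    obtain ⟨g, hg⟩ := Triangle.yoneda_exact₂ _ ht' f hf
    exact ⟨g, hg.symm⟩
  · have ht' := Triangle.shift_distinguished t ht m
    obtain ⟨g, hg⟩ := Triangle.yoneda_exact₂ _ ht' f (b1 m (by omega) _)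
    rw [hg]
    have h4 : g = 0 := b3 m (by omega) g
    rw [h4]
    exact comp_zero

theorem finHom_mid₂ {X : T} (t : Triangle T) (ht : t ∈ distTriang T) (h1 : FinHom k X t.obj₁)
    (h3 : FinHom k X t.obj₃) : FinHom k X t.obj₂ := by
  obtain ⟨a1, N1, b1⟩ := h1
  obtain ⟨a3, N3, b3⟩ := h3
  refine ⟨fun m => ?_, max N1 N3, fun m hm f => ?_⟩
  · have := a1 m
    have := a3 m
    refine finite_of_exact (Linear.rightComp k (X⟦m⟧) t.mor₁)
      (Linear.rightComp k (X⟦m⟧) t.mor₂) fun f hf => ?_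
    obtain ⟨g, hg⟩ := Triangle.coyoneda_exact₂ _ ht f hf
    exact ⟨g, hg.symm⟩
  · obtain ⟨g, hg⟩ := Triangle.coyoneda_exact₂ _ ht f (b3 m (by omega) _)
    rw [hg, b1 m (by omega) g, zero_comp]

theorem finHom_zero₁ (Y : T) : FinHom k (0 : T) Y := by
  have h : ∀ m : ℤ, Subsingleton ((0 : T)⟦m⟧ ⟶ Y) := fun m =>
    ⟨fun a b => (((shiftFunctor T m).map_isZero (isZero_zero T)).eq_of_src a b)⟩
  exact ⟨fun m => by have := h m; infer_instance, 0, fun m _ f => Subsingleton.elim _ _⟩

theorem finHom_zero₂ (X : T) : FinHom k X (0 : T) := by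
  have h : ∀ m : ℤ, Subsingleton (X⟦m⟧ ⟶ (0 : T)) := fun m =>
    ⟨fun a b => (isZero_zero T).eq_of_tgt a b⟩
  exact ⟨fun m => by have := h m; infer_instance, 0, fun m _ f => Subsingleton.elim _ _⟩

variable (k) [∀ n : ℤ, (shiftFunctor T n).Linear k]

/-- the objects with finite total Hom to `Y` -/
def finProp₁ (Y : T) : ObjectProperty T := fun X => FinHom k X Y

/-- the objects with finite total Hom from `X` -/
def finProp₂ (X : T) : ObjectProperty T := fun Y => FinHom k X Y

instance (Y : T) : (finProp₁ k Y).IsStableUnderRetracts where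
  of_retract r h := finHom_retract₁ r h

instance (X : T) : (finProp₂ k X).IsStableUnderRetracts where
  of_retract r h := finHom_retract₂ r h

instance (Y : T) : (finProp₁ k Y).IsTriangulated where
  exists_zero := ⟨0, isZero_zero T, finHom_zero₁ Y⟩
  isStableUnderShiftBy n := ⟨fun _ hX => finHom_shift₁ hX n⟩
  toIsTriangulatedClosed₂ := ObjectProperty.IsTriangulatedClosed₂.mk' fun t ht h1 h3 =>
    finHom_mid₁ t ht h1 h3

instance (X : T) : (finProp₂ k X).IsTriangulated where
  exists_zero := ⟨0, isZero_zero T, finHom_zero₂ X⟩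
  isStableUnderShiftBy n := ⟨fun _ hX => finHom_shift₂ hX n⟩
  toIsTriangulatedClosed₂ := ObjectProperty.IsTriangulatedClosed₂.mk' fun t ht h1 h3 =>
    finHom_mid₂ t ht h1 h3

/-- finite total Hom spaces on the thick closure -/
theorem finHom_thickOf {ι : Type*} (G : ι → T) (h : ∀ i j, FinHom k (G i) (G j)) {X Y : T}
    (hX : thickOf G X) (hY : thickOf G Y) : FinHom k X Y :=
  thickOf_le G (finProp₁ k Y) (fun i => thickOf_le G (finProp₂ k (G i)) (fun j => h i j) _ hY) _ hX

theorem homFin_of_finHom (P : ObjectProperty T) [P.IsTriangulated]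
    (h : ∀ X Y : T, P X → P Y → FinHom k X Y) : HomFin k P.FullSubcategory := by
  refine ⟨fun X Y => ?_, fun X Y => ?_⟩
  · obtain ⟨h1, -⟩ := h X.obj Y.obj X.property Y.property
    have h2 := h1 0
    have h3 : Module.Finite k (X.obj ⟶ Y.obj) :=
      Module.Finite.of_surjective (Linear.leftComp k Y.obj ((shiftFunctorZero T ℤ).inv.app X.obj))
        fun f => ⟨(shiftFunctorZero T ℤ).hom.app X.obj ≫ f, by
          change (shiftFunctorZero T ℤ).inv.app X.obj ≫
            (shiftFunctorZero T ℤ).hom.app X.obj ≫ f = f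
          simp⟩
    exact Module.Finite.equiv
      ({ toFun := fun f => ObjectProperty.homMk f
         invFun := fun f => f.hom
         left_inv := fun _ => rfl
         right_inv := fun _ => rfl
         map_add' := fun _ _ => rfl
         map_smul' := fun _ _ => rfl } : (X.obj ⟶ Y.obj) ≃ₗ[k] (X ⟶ Y))
  · obtain ⟨-, N, h1⟩ := h X.obj Y.obj X.property Y.property
    refine ⟨N, fun m hm f => ?_⟩
    ext
    exact (cancel_epi ((P.ι.commShiftIso m).inv.app X)).1 ((h1 m hm _).trans comp_zero.symm)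

end Fin

end OrlNum
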