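import Pool.Agent.Work.MP_a6e60d_ag.BC.Perf
import Pool.Agent.Work.MP_a6e60d_ag.BI.Thick
import Pool.Agent.Work.MP_a6e60d_ag.BI.Cls

/-!
MP_a6e60d_ag, Theorem B, instantiation 5: Theorem B from the modules `M_I(a)` and `O(j)` over
the splitting field `K`, their restrictions to `F` and the six rational objects over `F`.
-/

open CategoryTheory Category Limits Pretriangulated Module ZeroObject DerivedCategory Abelian

set_option linter.unusedSectionVars false

attribute [-instance] CategoryTheory.catToReflQuiver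

namespace OrlNum

open Orl Orl.BC Orl.Q

universe e w w' v v' u u' z z' v₁ u₁

section

variable {A : Type u} [Category.{v} A] [Abelian A] [HasDerivedCategory.{w} A]

instance : (TStructure.t (C := A)).bounded.IsStableUnderRetracts where
  of_retract r h := bounded_of_retract r h

theorem bounded_sg (X : A) : (TStructure.t (C := A)).bounded (sg X) := by
  constructor
  · exact ⟨0, inferInstanceAs ((sg X).IsGE 0)⟩
  · exact ⟨0, inferInstanceAs ((sg X).IsLE 0)⟩

theorem thickOf_bounded {ι : Type*} (G : ι → A) :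
    thickOf (fun i => sg (G i)) ≤ (TStructure.t (C := A)).bounded :=
  thickOf_le _ _ fun i => bounded_sg (G i)

/-- membership in the thick closure from the abelian category -/
theorem thickOf_of_inThk {ι : Type*} (G : ι → A) {X : A} (h : InThk G X) :
    thickOf (fun i => sg (G i)) (sg X) :=
  h.derived (thickOf fun i => sg (G i)) fun i => thickOf_mem (fun i => sg (G i)) i

end

section Main

variable {A : Type u} [Category.{v} A] [Abelian A] [HasDerivedCategory.{w} A]
  {B : Type u'} [Category.{v'} B] [Abelian B] [HasDerivedCategory.{w'} B]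
  {P : A ⥤ B} [P.Additive] [PreservesFiniteLimits P] [PreservesFiniteColimits P]
  {R : B ⥤ A} [R.Additive] [PreservesFiniteLimits R] [PreservesFiniteColimits R]
  {k : Type z} [Field k] {F : Type z'} [Field F] [Algebra k F] [Linear k A] [Linear F B]
  {adj : P ⊣ R} {s : F} (q : QuadData k F P R adj s)
  {CK : Type u₁} [Category.{v₁} CK] [Abelian CK]
  (res : CK ⥤ B) [res.Additive] [PreservesFiniteLimits res] [PreservesFiniteColimits res]
  {M : Finset (Fin 4) → ℤ → CK} {O : ℤ → CK} {ι : Type*} (G : ι → A)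

/-- the six rational objects over F generate the derived category, as far as orthogonality is
concerned -/
theorem orth_res (hM : SqData M) (hO : ∀ j, Sq (O (j - 2)) (O (j - 1)) (O (j - 1)) (O j))
    {X : ℤ → B} {Y : B} {Z : ℤ → B}
    (eX : ∀ a, Nonempty (res.obj (M ∅ a) ≅ X a ⊞ (X a ⊞ X a)))
    (eY : Nonempty (res.obj (M {3} 0) ≅ Y ⊞ (Y ⊞ Y)))
    (eZ : ∀ j, Nonempty (res.obj (O j) ≅ Z j ⊞ (Z j ⊞ Z j)))
    (e1 : Nonempty (res.obj (M {1} 0) ≅ res.obj (M {0} 0)))
    (e2 : Nonempty (res.obj (M {2} 0) ≅ res.obj (M {0} 0)))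
    {N : DerivedCategory B} (h0 : Orth (sg (X 1)) N) (h1 : Orth (sg (res.obj (M {0} 0))) N)
    (h2 : Orth (sg Y) N) (h3 : Orth (sg (X 0)) N) (h4 : Orth (sg (Z (-1))) N)
    (h5 : Orth (sg (Z (-2))) N) {W : CK}
    (hW : InThk (Sum.elim (fun p : Finset (Fin 4) × ℤ => M p.1 p.2) O) W) :
    Orth (sg (res.obj W)) N := by
  have hB : Thk ((orthProp N).inverseImage (singleFunctor B 0)) := Thk.ofDerived (orthProp N)
  have hK : Thk (((orthProp N).inverseImage (singleFunctor B 0)).inverseImage res) := hB.comap' res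
  have h3c : ∀ {U V : B} (e : Nonempty (V ≅ U ⊞ (U ⊞ U))), Orth (sg U) N → Orth (sg V) N := by
    rintro U V ⟨e⟩ hU
    exact hB.iso e.symm (hB.biprod hU (hB.biprod hU hU))
  refine hW _ hK ?_
  have hMa : ∀ I a, (((orthProp N).inverseImage (singleFunctor B 0)).inverseImage res) (M I a) := by
    refine hM.gen_F hK (h3c (eX 0) h3) h1 ?_ ?_ (h3c eY h2) (h3c (eX 1) h0)
    · obtain ⟨e1⟩ := e1
      exact hB.iso e1.symm h1
    · obtain ⟨e2⟩ := e2
      exact hB.iso e2.symm h1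
  have hOa : ∀ j, (((orthProp N).inverseImage (singleFunctor B 0)).inverseImage res) (O j) :=
    koszul hK O hO (-2) (h3c (eZ (-2)) h5) (by
      rw [show (-2 : ℤ) + 1 = -1 by norm_num]
      exact h3c (eZ (-1)) h4)
  rintro (⟨I, a⟩ | j)
  · exact hMa I a
  · exact hOa j

variable (τ : B ⥤ B) [τ.Additive] [τ.IsEquivalence] [PreservesFiniteLimits τ]
  [PreservesFiniteColimits τ]

include q in
/-- Theorem B for the thick closure of the objects `G i`. -/
theorem no_full_collection_of_data [HasExt.{e} B] (hs : s ≠ 0) (hF2 : (2 : F) ≠ 0) (c : k)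
    (hc : s * s = algebraMap k F c) (φ : P ⋙ τ ≅ P)
    (hfin : ∀ i j, FinHom k (sg (G i)) (sg (G j)))
    (hM : SqData M) (hO : ∀ j, Sq (O (j - 2)) (O (j - 1)) (O (j - 1)) (O j))
    (hG : ∀ i, ∃ W : CK, InThk (Sum.elim (fun p : Finset (Fin 4) × ℤ => M p.1 p.2) O) W ∧
      Nonempty (Retract (P.obj (G i)) (res.obj W)))
    (hMG : ∀ I a, InThk G (R.obj (res.obj (M I a)))) (hOG : ∀ j, InThk G (R.obj (res.obj (O j))))
    {X : ℤ → B} {Y : B} {Z : ℤ → B}
    (eX : ∀ a, Nonempty (res.obj (M ∅ a) ≅ X a ⊞ (X a ⊞ X a)))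
    (eY : Nonempty (res.obj (M {3} 0) ≅ Y ⊞ (Y ⊞ Y)))
    (eZ : ∀ j, Nonempty (res.obj (O j) ≅ Z j ⊞ (Z j ⊞ Z j)))
    (e1 : Nonempty (res.obj (M {1} 0) ≅ res.obj (M {0} 0)))
    (e2 : Nonempty (res.obj (M {2} 0) ≅ res.obj (M {0} 0)))
    (eτ : Nonempty (τ.obj (res.obj (M {0} 0)) ≅ res.obj (M {1, 2, 3} (-1))))
    (t : Fin 6 → B) (ht : t = ![X 1, res.obj (M {0} 0), Y, X 0, Z (-1), Z (-2)])
    (hext : ∀ i j, i ≤ j → ∀ n : ℕ, 0 < n → Subsingleton (Ext.{e} (t i) (t j) n))
    (hhom : ∀ i j, i < j → ∀ f : t i ⟶ t j, f = 0)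
    (hiso : ∀ i, ∀ f : t i ⟶ t i, f ≠ 0 → IsIso f)
    (hd1 : ∀ i, i ≠ 1 → finrank F (t i ⟶ t i) = 1) (hd3 : finrank F (t 1 ⟶ t 1) = 3) :
    ¬ ∃ (n : ℕ) (E : Fin n → DerivedCategory A), (∀ i, thickOf (fun i => sg (G i)) (E i)) ∧
      IsSemiExcCollection k E ∧ FullIn (thickOf fun i => sg (G i)) E := by
  let Pf : ObjectProperty (DerivedCategory A) := thickOf fun i => sg (G i)
  have hS : Thk ((Up R Pf).inverseImage (singleFunctor B 0)) := Thk.ofDerived (Up R Pf)
  -- restrictions of K-objects are perfect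
  have hup : ∀ {V : B}, InThk G (R.obj V) → Up R Pf (sg V) := fun {V} hV =>
    Pf.prop_of_iso ((R.mapDerivedCategorySingleFunctor 0).app V).symm (thickOf_of_inThk G hV)
  have h3c : ∀ {U V : B} (e : Nonempty (V ≅ U ⊞ (U ⊞ U))), Up R Pf (sg V) → Up R Pf (sg U) := by
    rintro U V ⟨e⟩ hV
    exact hS.biprod_left (hS.iso e hV)
  have hMS : ∀ I a, Up R Pf (sg (res.obj (M I a))) := fun I a => hup (hMG I a)
  have htS : ∀ i, Up R Pf (sg (t i)) := by
    rw [ht]
    intro i
    fin_cases i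
    · exact h3c (eX 1) (hMS _ _)
    · exact hMS _ _
    · exact h3c eY (hMS _ _)
    · exact h3c (eX 0) (hMS _ _)
    · exact h3c (eZ (-1)) (hup (hOG _))
    · exact h3c (eZ (-2)) (hup (hOG _))
  refine no_full_collection q Pf τ hs hF2 c hc φ (thickOf_bounded G)
    (homFin_of_finHom k Pf fun X Y hX hY => finHom_thickOf k _ hfin hX hY)
    (fun i => sg (t i)) htS (fun i => divn_sg (t i) (hiso i) (hext i i le_rfl))
    (fun i j hij => orth_sg (t i) (t j) (hhom i j hij) (hext i j hij.le)) ?_ 1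
    (by rw [finrank_sg]; exact hd3) (fun i hi => by rw [finrank_sg]; exact hd1 i hi) ?_
  · -- generation
    intro N hN ho
    rw [ht] at ho
    have hW : ∀ {W : CK}, InThk (Sum.elim (fun p : Finset (Fin 4) × ℤ => M p.1 p.2) O) W →
        Orth (sg (res.obj W)) N := fun {W} hW =>
      orth_res res hM hO eX eY eZ e1 e2 (ho 0) (ho 1) (ho 2) (ho 3) (ho 4) (ho 5) hW
    have h1 : ∀ i, orthPropMap P.mapDerivedCategory N (sg (G i)) := by
      intro i
      obtain ⟨W, hW1, ⟨r⟩⟩ := hG i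
      have h2 : Orth (sg (P.obj (G i))) N :=
        (hW hW1).retract (r.map (singleFunctor B 0)) (Retract.refl N)
      exact orth_of_iso ((P.mapDerivedCategorySingleFunctor 0).app (G i)).symm h2
    have h2 : Pf ≤ orthPropMap P.mapDerivedCategory N := thickOf_le _ _ h1
    obtain ⟨r⟩ := exists_retract q N
    exact isZero_of_orth_self ((h2 _ hN).retract r (Retract.refl N))
  · -- the relation
    have hτ : Up R Pf (sg (τ.obj (res.obj (M {0} 0)))) := by
      obtain ⟨e⟩ := eτ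
      exact hS.iso e.symm (hMS _ _)
    obtain ⟨y, hy⟩ := kc_rel (Up R Pf) res hM hMS e1 e2 (fun a => ⟨_, eX a⟩) ⟨_, eY⟩ hτ eτ
    refine ⟨y, ?_⟩
    rw [← hy]
    have ht1 : t 1 = res.obj (M {0} 0) := by rw [ht]; rfl
    have i1 : sg (t 1) ≅ sg (res.obj (M {0} 0)) := eqToIso (by rw [ht1])
    have i2 : τ.mapDerivedCategory.obj (sg (t 1)) ≅ sg (τ.obj (res.obj (M {0} 0))) :=
      τ.mapDerivedCategory.mapIso i1 ≪≫ (τ.mapDerivedCategorySingleFunctor 0).app _
    exact congrArg₂ (· + ·) (cls_iso ((Up R Pf).isoMk i1)) (cls_iso ((Up R Pf).isoMk i2))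

end Main

end OrlNum
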