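import Pool.Agent.Work.MP_a6e60d_ag.BI.Six
import Pool.Agent.Work.MP_a6e60d_ag.BI.Abs
import Pool.Agent.Work.MP_a6e60d_ag.Q.SqD

/-!
MP_a6e60d_ag, Theorem B, instantiation 8: the generators over the base field: finite dimensional
total Hom spaces, extension to F and K, restrictions of K-objects; the conjugation.
-/

open CategoryTheory Category Limits Module Abelian Pretriangulated DerivedCategory

set_option linter.unusedSectionVars false

attribute [-instance] CategoryTheory.catToReflQuiver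

namespace OrlNum

open Orl Orl.LF Orl.Gal Orl.Q Orl.BC

universe w₁ w₂ w v' u' v u

attribute [local instance] Abelian.hasFiniteBiproducts

section FinSg

variable {T : Type u} [Category.{v} T] [Preadditive T] [HasShift T ℤ]
  [∀ n : ℤ, (shiftFunctor T n).Additive]

theorem eq_zero_of_target_neg {X Y : T} {m : ℤ} (h : ∀ f : X ⟶ Y⟦-m⟧, f = 0)
    (f : X⟦m⟧ ⟶ Y) : f = 0 := by
  have h1 : (shiftFunctorCompIsoId T m (-m) (by ring)).inv.app X ≫ f⟦-m⟧' = 0 := h _
  have h2 : f⟦-m⟧' = 0 := by
    rw [← cancel_epi ((shiftFunctorCompIsoId T m (-m) (by ring)).inv.app X), h1, comp_zero]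
  exact (shiftFunctor T (-m)).map_eq_zero_iff.mp h2

variable {k : Type*} [Field k] {A : Type u'} [Category.{v'} A] [Abelian A] [Linear k A]
  [HasExt.{w₁} A] [HasDerivedCategory.{w₂} A]

theorem finHom_sg {X Y : A} (h0 : Module.Finite k (X ⟶ Y)) (h : Acyc.{w₁} X Y) :
    FinHom k (sg X) (sg Y) := by
  have hz : ∀ m : ℤ, m ≠ 0 → ∀ f : (sg X)⟦m⟧ ⟶ sg Y, f = 0 := fun m hm f =>
    eq_zero_of_target_neg (fun f => sg_eq_zero X Y (-m) (fun n hn => h n (by omega)) f) f
  refine ⟨fun m => ?_, 0, fun m hm f => hz m (by omega) f⟩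
  by_cases hm : m = 0
  · subst hm
    have h1 : Module.Finite k ((𝟭 (DerivedCategory A)).obj (sg X) ⟶ sg Y) :=
      Module.Finite.of_surjective ((singleFunctor A 0).mapLinearMap k (X := X) (Y := Y))
        (singleFunctor A 0).map_surjective
    exact Module.Finite.of_surjective (Linear.leftComp k (sg Y)
      ((shiftFunctorZero (DerivedCategory A) ℤ).hom.app (sg X))) fun f =>
        ⟨(shiftFunctorZero (DerivedCategory A) ℤ).inv.app (sg X) ≫ f, by
          change (shiftFunctorZero (DerivedCategory A) ℤ).hom.app (sg X) ≫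
            (shiftFunctorZero (DerivedCategory A) ℤ).inv.app (sg X) ≫ f = f
          simp⟩
  · have : Subsingleton ((sg X)⟦m⟧ ⟶ sg Y) := ⟨fun a b => by rw [hz m hm a, hz m hm b]⟩
    infer_instance

end FinSg

variable {k : Type} [Field k] {F K : Type} [Field F] [Field K] [Algebra k F]
  [Algebra k K] [Algebra F K] [IsScalarTower k F K]
variable {C : Type u'} [Category.{v'} C] [Abelian C] [Linear k C] [FiniteDimensional k F]
  [FiniteDimensional k K] [FiniteDimensional F K]
variable {M : Finset (Fin 4) → ℤ → ModObj k K C} {O : ℤ → ModObj k K C} {Ok Ek : ℤ → C}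
  (ho : ∀ j, Nonempty ((indC k C K).obj (Ok j) ≅ O j))
  (he : ∀ j, Nonempty ((indC k C K).obj (Ek j) ≅ M ∅ j ⊞ M Finset.univ (j - 2)))

section Fin

variable [HasExt.{w₁} C] [HasExt.{w₂} (ModObj k K C)] [HasDerivedCategory.{w} C]

theorem finHom_low {X : C} {V : ModObj k K C}
    (h0 : Module.Finite k ((indC k C K).obj X ⟶ V))
    (h : Acyc.{w₂} ((indC k C K).obj X) V) : FinHom k (sg X) (sg V.pt) := by
  refine finHom_sg ?_ (fun n hn => ?_)
  · let φ : ((indC k C K).obj X ⟶ V) →ₗ[k] (X ⟶ V.pt) :=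
      { toFun := fun f => (indCAdj k C K).unit.app X ≫ (ev (SingleObj.star K)).map f
        map_add' := fun f g => by
          rw [Functor.map_add]
          exact Preadditive.comp_add _ _ _ _ _ _
        map_smul' := fun r f => by
          rw [Functor.map_smul]
          exact Linear.comp_smul _ _ _ _ _ _ }
    refine Module.Finite.of_surjective φ fun f => ?_
    obtain ⟨g, hg⟩ := ((indCAdj k C K).homEquiv X V).surjective f
    refine ⟨g, ?_⟩
    rw [← hg, Adjunction.homEquiv_unit]
    rfl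
  · have h1 := h n hn
    exact (extIndC X V n).symm.toEquiv.subsingleton

variable (hM : SqData M) (hO : ∀ j, Sq (O (j - 2)) (O (j - 1)) (O (j - 1)) (O j))

include hM hO

theorem finHom_all {X : C} {a₀ : ℤ}
    (h : Low.{w₂} k (fun x : Finset (Fin 4) × ℤ => M x.1 x.2) O ((indC k C K).obj X) a₀) :
    (∀ I a, FinHom k (sg X) (sg (M I a).pt)) ∧ ∀ j, FinHom k (sg X) (sg (O j).pt) := by
  have hC : Thk ((finProp₂ k (sg X)).inverseImage (singleFunctor C 0)) :=
    Thk.ofDerived (finProp₂ k (sg X))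
  have hK : Thk (((finProp₂ k (sg X)).inverseImage (singleFunctor C 0)).inverseImage
    (ev (k := k) (C := C) (SingleObj.star K))) := hC.comap' (ev (SingleObj.star K))
  constructor
  · intro I a
    exact koszul hK (M I) (hM.xt I) a₀ (finHom_low (h.mf (I, a₀)) (h.m (I, a₀) le_rfl))
      (finHom_low (h.mf (I, a₀ + 1)) (h.m (I, a₀ + 1) (by simp))) a
  · intro j
    exact koszul hK O hO a₀ (finHom_low (h.of a₀) (h.o a₀ le_rfl))
      (finHom_low (h.of (a₀ + 1)) (h.o (a₀ + 1) (by simp))) j

include ho he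

theorem finHom_gen (T : Tab.{w₂} k (zact k K C) (fun x : Finset (Fin 4) × ℤ => M x.1 x.2) O)
    (i j : ℤ ⊕ ℤ) : FinHom k (sg (Sum.elim Ok Ek i)) (sg (Sum.elim Ok Ek j)) := by
  -- the extension of a generator
  have h1 : ∀ i : ℤ ⊕ ℤ, ∃ a₀, Low.{w₂} k (fun x : Finset (Fin 4) × ℤ => M x.1 x.2) O
      ((indC k C K).obj (Sum.elim Ok Ek i)) a₀ := by
    rintro (i | i)
    · obtain ⟨e⟩ := ho i
      exact ⟨i + 1, (low_O T i).iso e.symm⟩
    · obtain ⟨e⟩ := he i
      refine ⟨i + 3, Low.iso (Low.mid (S := ShortComplex.mk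
        (biprod.inl : M ∅ i ⟶ M ∅ i ⊞ M Finset.univ (i - 2)) biprod.snd (by simp))
        (ShortComplex.Splitting.shortExact
          { r := biprod.fst
            s := biprod.inr
            id := by simp }) (low_M T (∅, i))
              ((low_M T (Finset.univ, i - 2)).mono (by simp only; omega))) e.symm⟩
  obtain ⟨a₀, hi⟩ := h1 i
  obtain ⟨h2, h3⟩ := finHom_all hM hO hi
  -- a generator is a retract of its extension
  have h4 : Nonempty (Retract (Sum.elim Ok Ek j) ((indC k C K).obj (Sum.elim Ok Ek j)).pt) := by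
    obtain ⟨r⟩ := exists_retract_res_ind (k := k) (E := k) (K := K)
      ((triv k C).obj (Sum.elim Ok Ek j))
    exact ⟨r.map (ev (SingleObj.star k))⟩
  obtain ⟨r⟩ := h4
  refine finHom_retract₂ (r.map (singleFunctor C 0)) ?_
  have hC : Thk ((finProp₂ k (sg (Sum.elim Ok Ek i))).inverseImage (singleFunctor C 0)) :=
    Thk.ofDerived (finProp₂ k (sg (Sum.elim Ok Ek i)))
  have hK := hC.comap' (ev (k := k) (C := C) (SingleObj.star K))
  have h5 : ((finProp₂ k (sg (Sum.elim Ok Ek i))).inverseImage (singleFunctor C 0)).inverseImage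
      (ev (k := k) (C := C) (SingleObj.star K)) ((indC k C K).obj (Sum.elim Ok Ek j)) := by
    rcases j with j | j
    · obtain ⟨e⟩ := ho j
      exact hK.iso e.symm (h3 j)
    · obtain ⟨e⟩ := he j
      exact hK.iso e.symm (hK.biprod (h2 _ _) (h2 _ _))
  exact h5

end Fin

section Ext

/-- extension of scalars to the quadratic field, in two ways -/
noncomputable def extFIso {s : F} {c : k} (b : QuadBasis k F s c) :
    extF b C ≅ indC k C F :=
  (extAdj b).leftAdjointUniq (indCAdj k C F)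

theorem ind_indC (X : C) :
    Nonempty ((indE k F K C).obj ((indC k C F).obj X) ≅ (indC k C K).obj X) :=
  ⟨(indTrans k F K C k).app ((triv k C).obj X)⟩

theorem retract_ext {s : F} {c : k} (b : QuadBasis k F s c) (X : C) :
    Nonempty (Retract ((extF b C).obj X) ((resE k F K C).obj ((indC k C K).obj X))) := by
  obtain ⟨r⟩ := retract_res (k := k) (F := F) (K := K) (X := (indC k C F).obj X)
    (V := (indC k C K).obj X) (ind_indC X)
  exact ⟨(Retract.ofIso ((extFIso b).app X)).trans r⟩

include ho he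

theorem inThk_ext (i : ℤ ⊕ ℤ) :
    InThk (Sum.elim (fun p : Finset (Fin 4) × ℤ => M p.1 p.2) O)
      ((indC k C K).obj (Sum.elim Ok Ek i)) := by
  have h := inThk_thk (Sum.elim (fun p : Finset (Fin 4) × ℤ => M p.1 p.2) O)
  rcases i with i | i
  · obtain ⟨e⟩ := ho i
    exact h.iso e.symm (inThk_gen _ (Sum.inr i))
  · obtain ⟨e⟩ := he i
    exact h.iso e.symm (h.biprod (inThk_gen _ (Sum.inl (∅, i)))
      (inThk_gen (Sum.elim (fun p : Finset (Fin 4) × ℤ => M p.1 p.2) O)
        (Sum.inl (Finset.univ, i - 2))))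

/-- **The K-objects are perfect over k.** -/
theorem inThk_pt (vvc : ∀ I a, Sq (M ∅ a) (M I a) (M Iᶜ a) (M Finset.univ a)) :
    (∀ I a, InThk (Sum.elim Ok Ek) (M I a).pt) ∧ ∀ j, InThk (Sum.elim Ok Ek) (O j).pt := by
  have h1 : ∀ (Q : ObjectProperty C), Thk Q → (∀ i, Q (Sum.elim Ok Ek i)) →
      ∀ i, (Q.inverseImage (ev (k := k) (C := C) (SingleObj.star K)))
        ((indC k C K).obj (Sum.elim Ok Ek i)) := by
    intro Q hQ hi i
    have h2 : Thk (Q.inverseImage (ev (k := k) (C := C) (SingleObj.star k))) :=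
      hQ.comap' (ev (SingleObj.star k))
    exact res_ind (K := K) h2 (X := (triv k C).obj (Sum.elim Ok Ek i)) (hi i)
  have h3 : ∀ (Q : ObjectProperty C), Thk Q → (∀ i, Q (Sum.elim Ok Ek i)) →
      (∀ a, (Q.inverseImage (ev (k := k) (C := C) (SingleObj.star K))) (M ∅ a)) ∧
      ∀ a, (Q.inverseImage (ev (k := k) (C := C) (SingleObj.star K))) (M Finset.univ a) := by
    intro Q hQ hi
    have hK := hQ.comap' (ev (k := k) (C := C) (SingleObj.star K))
    refine ⟨fun a => ?_, fun a => ?_⟩
    · obtain ⟨e⟩ := he a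
      exact hK.biprod_left (hK.iso e (h1 Q hQ hi (Sum.inr a)))
    · obtain ⟨e⟩ := he (a + 2)
      have h4 := hK.biprod_right (hK.iso e (h1 Q hQ hi (Sum.inr (a + 2))))
      rwa [add_sub_cancel_right] at h4
  refine ⟨fun I a Q hQ hi => ?_, fun j Q hQ hi => ?_⟩
  · obtain ⟨h4, h5⟩ := h3 Q hQ hi
    exact (vvc I a).p₂ (hQ.comap' (ev (k := k) (C := C) (SingleObj.star K))) (h4 a) (h5 a)
  · obtain ⟨e⟩ := ho j
    exact (hQ.comap' (ev (k := k) (C := C) (SingleObj.star K))).iso e (h1 Q hQ hi (Sum.inl j))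

end Ext

section Tau

instance (g : F ≃ₐ[k] F) : (conj k C g).IsEquivalence := (conjEquiv k C g).isEquivalence_functor

/-- extended objects are invariant under conjugation -/
noncomputable def extConjIso {s : F} {c : k} (b : QuadBasis k F s c) (g : F ≃ₐ[k] F) :
    extF b C ⋙ conj k C g ≅ extF b C :=
  ((extAdj b).comp ((conjEquiv k C g).toAdjunction)).leftAdjointUniq (extAdj b)

/-- conjugation and restriction -/
theorem conj_res {g : F ≃ₐ[k] F} {g' : K ≃ₐ[k] K}
    (h : ∀ x : F, g' (algebraMap F K x) = algebraMap F K (g x)) (V : ModObj k K C) :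
    Nonempty ((conj k C g).obj ((resE k F K C).obj V) ≅
      (resE k F K C).obj ((conj k C g').obj V)) := by
  refine ⟨{ hom := ModObj.homMk (M := (conj k C g).obj ((resE k F K C).obj V))
                (N := (resE k F K C).obj ((conj k C g').obj V)) (𝟙 V.pt) fun e => ?_
            inv := ModObj.homMk (M := (resE k F K C).obj ((conj k C g').obj V))
                (N := (conj k C g).obj ((resE k F K C).obj V)) (𝟙 V.pt) fun e => ?_
            hom_inv_id := ModObj.hom_ext (comp_id _)
            inv_hom_id := ModObj.hom_ext (comp_id _) }⟩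
  · change V.act (algebraMap F K (g e)) ≫ 𝟙 _ = 𝟙 _ ≫ V.act (g' (algebraMap F K e))
    rw [h, comp_id, id_comp]
  · change V.act (g' (algebraMap F K e)) ≫ 𝟙 _ = 𝟙 _ ≫ V.act (algebraMap F K (g e))
    rw [h, comp_id, id_comp]

end Tau

end OrlNum
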