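import Pool.Agent.Work.MP_a6e60d_ag.BI.Base
import Pool.Agent.Work.MP_a6e60d_ag.Q.FldConj
import Pool.Agent.Work.MP_a6e60d_ag.Q.Forms

/-!
MP_a6e60d_ag, Theorem B for the modules over the tiled algebra: the thick closure of the objects
`O(j)` and `E(j)` has no full semi-exceptional collection (given the table of the groups Ext over
the splitting field).
-/

open CategoryTheory Category Limits Module Abelian Pretriangulated DerivedCategory

set_option linter.unusedSectionVars false

attribute [-instance] CategoryTheory.catToReflQuiver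

namespace OrlNum

open Orl Orl.LF Orl.Gal Orl.Q Orl.BC Orl.Fld

universe w₁ w₂ w

attribute [local instance] Abelian.hasFiniteBiproducts

variable {k F L K : Type} [Field k] [Field F] [Field L] [Field K] [Algebra k F]
    [Algebra k L] [Algebra k K] [Algebra F K] [Algebra L K] [IsScalarTower k F K]
    [IsScalarTower k L K] (D : FieldDatum k F L K)

/-- the coordinates in the basis 1, s -/
noncomputable def quadBasis : QuadBasis k F D.s D.a where
  x := D.bF.coord 0
  y := D.bF.coord 1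
  eq e := by
    conv_lhs => rw [← D.bF.sum_repr e, Fin.sum_univ_two, D.bF0, D.bF1, Algebra.smul_def, mul_one,
      Algebra.smul_def]
    rfl
  x_one := by
    rw [← D.bF0]
    simp
  y_one := by
    rw [← D.bF0]
    simp
  x_s := by
    conv_lhs => rw [← D.bF1]
    simp
  y_s := by
    conv_lhs => rw [← D.bF1]
    simp
  sq := D.s_sq

theorem perm_sig (j : Fin 3) : D.sig (D.r j) = D.r (Equiv.addRight (1 : Fin 3) j) := D.sig_r j

theorem conjF : ConjF F D.spl.M D.spl.O := by
  obtain ⟨l, hl⟩ := exists_rootConj D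
  have hs : ∀ g : K ≃ₐ[F] K, g D.spl.s = D.spl.s := fun g => g.commutes D.s
  have hp : ∀ (g : K ≃ₐ[F] K) (j : Fin 3), g (D.r j) = D.r (D.perm (g.restrictScalars k) j) :=
    fun g => D.perm_spec (g.restrictScalars k)
  refine ⟨fun g => ⟨l g, hl.ne_three g, fun h => ?_, hl.iso g 0⟩, fun g a => ?_, fun g => ?_,
    fun g j => ⟨D.spl.conjO g j⟩⟩
  · by_contra hg
    exact hl.ne_zero g hg h
  · exact ⟨D.spl.conjM_pos g _ (hp g) (hs g) (by rw [mv, Finset.map_empty]) a⟩
  · exact ⟨D.spl.conjM_pos g _ (hp g) (hs g) (by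
      rw [mv, Finset.map_singleton]
      rfl) 0⟩

theorem forms [FiniteDimensional k F] [FiniteDimensional k K] [FiniteDimensional F K] :
    Forms D.spl.M D.spl.O (fun a => D.spl.M0 (E := F) D.s rfl a) (D.spl.M3 (E := F) D.s rfl 0)
      (fun j => D.qd.OE F j) where
  x a := ⟨D.spl.indM0 D.s rfl a⟩
  y := ⟨D.spl.indM3 D.s rfl 0⟩
  z j := ⟨D.spl.indOE j⟩

/-- restriction identifies conjugate objects -/
theorem res_one : Nonempty ((resE k F K D.qd.Cat).obj (D.spl.M {1} 0) ≅
    (resE k F K D.qd.Cat).obj (D.spl.M {0} 0)) :=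
  ⟨resConj D.sig _ ≪≫ (resE k F K D.qd.Cat).mapIso (D.spl.conjM_pos D.sig (Equiv.addRight 1)
    (perm_sig D) D.sig_sK (by decide) 0)⟩

theorem res_two : Nonempty ((resE k F K D.qd.Cat).obj (D.spl.M {2} 0) ≅
    (resE k F K D.qd.Cat).obj (D.spl.M {0} 0)) := by
  obtain ⟨e⟩ := res_one D
  exact ⟨(resConj D.sig _ ≪≫ (resE k F K D.qd.Cat).mapIso (D.spl.conjM_pos (J := {1}) D.sig
    (Equiv.addRight 1) (perm_sig D) D.sig_sK (by decide) 0)) ≪≫ e⟩

/-- the conjugation of F over k and an extension to K -/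
theorem exists_tau [FiniteDimensional k F] [FiniteDimensional k K] [FiniteDimensional F K] :
    ∃ g : F ≃ₐ[k] F,
    Nonempty ((conj k D.qd.Cat g).obj ((resE k F K D.qd.Cat).obj (D.spl.M {0} 0)) ≅
      (resE k F K D.qd.Cat).obj (D.spl.M {1, 2, 3} (-1))) := by
  have : Algebra.IsQuadraticExtension k F := { finrank_eq_two' := D.finrank_F }
  refine ⟨D.tauk.restrictNormal F, ?_⟩
  obtain ⟨e⟩ := conj_res (C := D.qd.Cat) (g := D.tauk.restrictNormal F) (g' := D.tauk)
    (fun x => (D.tauk.restrictNormal_commutes F x).symm) (D.spl.M {0} 0)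
  refine ⟨e ≪≫ (resE k F K D.qd.Cat).mapIso (D.spl.conjM_neg D.tauk (Equiv.swap 1 2)
    (fun i => ?_) D.tau_sK (by decide) (by decide))⟩
  fin_cases i
  · exact D.tau_r0
  · exact D.tau_r
  · exact D.tau_r2

/-- Theorem B, given the table. -/
theorem no_full_collection_of_tab [HasDerivedCategory.{w} D.qd.Cat]
    [HasExt.{w₂} (ModObj k K D.qd.Cat)]
    (T : Tab.{w₂} k (zact k K D.qd.Cat) D.spl.Mp D.spl.O) :
    ¬ ∃ (n : ℕ) (E : Fin n → DerivedCategory D.qd.Cat),
      (∀ i, thickOf (fun i : ℤ ⊕ ℤ => sg (Sum.elim D.qd.O D.qd.E i)) (E i)) ∧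
      IsSemiExcCollection k E ∧
      FullIn (thickOf fun i : ℤ ⊕ ℤ => sg (Sum.elim D.qd.O D.qd.E i)) E := by
  have := D.finite_F
  have := D.finite_K
  have := D.finite_KF
  have := D.isGalois_KF
  let _ : HasDerivedCategory (ModObj k F D.qd.Cat) := HasDerivedCategory.standard _
  let _ : HasExt (ModObj k F D.qd.Cat) := HasExt.standard _
  let _ : HasExt D.qd.Cat := HasExt.standard _
  have : PreservesFiniteLimits (extF (quadBasis D) D.qd.Cat) :=
    extF_preservesFiniteLimits (quadBasis D) D.twoF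
  obtain ⟨g, hg⟩ := exists_tau D
  have ho : ∀ j, Nonempty ((indC k D.qd.Cat K).obj (D.qd.O j) ≅ D.spl.O j) := fun j =>
    ⟨D.spl.indCO j⟩
  have he : ∀ j, Nonempty ((indC k D.qd.Cat K).obj (D.qd.E j) ≅
      D.spl.M ∅ j ⊞ D.spl.M Finset.univ (j - 2)) := fun j => ⟨D.spl.indCE j⟩
  have fm := forms D
  have hc := conjF D
  obtain ⟨hp1, hp2⟩ := inThk_pt ho he D.spl.vvc
  exact no_full_collection_of_data (quadData (quadBasis D) D.twoF) (resE k F K D.qd.Cat)
    (Sum.elim D.qd.O D.qd.E) (conj k D.qd.Cat g) D.s_ne D.twoF D.a D.s_sq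
    (extConjIso (quadBasis D) g)
    (finHom_gen ho he D.spl.sqData D.spl.sqO T) D.spl.sqData D.spl.sqO
    (fun i => ⟨_, inThk_ext ho he i, retract_ext (quadBasis D) _⟩) hp1 hp2
    (fun a => res_three D.finrank_KF (fm.x a)) (res_three D.finrank_KF fm.y)
    (fun j => res_three D.finrank_KF (fm.z j)) (res_one D) (res_two D) hg
    (tF D.spl.M _ _ _) rfl (fun i j _ n hn => ext_t fm T hc i j hn)
    (fun i j hij f => hom_t fm T hc hij f) (fun i f hf => isIso_t fm T hc i f hf)
    (fun i hi => finrank_t fm T i hi) (finrank_t_one T hc D.finrank_KF)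

end OrlNum
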