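import Pool.Agent.Work.MP_a6e60d_ag.BI.Thick
import Pool.Agent.Work.MP_a6e60d_ag.BI.Single
import Pool.Agent.Work.MP_a6e60d_ag.BC.Quad
import Pool.Agent.Work.MP_a6e60d_ag.Gal.Down
import Pool.Agent.Work.MP_a6e60d_ag.Q.TF

/-!
MP_a6e60d_ag, Theorem B, instantiation 6: the six objects over the quadratic field: groups Ext,
morphisms, endomorphisms.
-/

open CategoryTheory Category Limits Module Abelian

set_option linter.unusedSectionVars false

attribute [-instance] CategoryTheory.catToReflQuiver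

namespace OrlNum

open Orl Orl.LF Orl.Gal Orl.Q

universe w₁ w₂ w v' u'

attribute [local instance] Abelian.hasFiniteBiproducts

section Three

variable {C : Type u'} [Category.{v'} C] [Preadditive C] [HasBinaryBiproducts C]

theorem iso_three {n : ℕ} (hn : n = 3) {X Y : C} (i : Fin n → (X ⟶ Y)) (p : Fin n → (Y ⟶ X))
    (h1 : ∀ j, i j ≫ p j = 𝟙 X) (h2 : ∀ j j', j ≠ j' → i j ≫ p j' = 0)
    (h3 : ∑ j, p j ≫ i j = 𝟙 Y) : Nonempty (Y ≅ X ⊞ (X ⊞ X)) := by
  subst hn
  rw [Fin.sum_univ_three] at h3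
  refine ⟨⟨biprod.lift (p 0) (biprod.lift (p 1) (p 2)),
    biprod.desc (i 0) (biprod.desc (i 1) (i 2)), ?_, ?_⟩⟩
  · rw [biprod.lift_desc, biprod.lift_desc, ← h3]
    abel
  · apply biprod.hom_ext'
    · apply biprod.hom_ext
      · simp [h1]
      · apply biprod.hom_ext <;> simp [h2]
    · apply biprod.hom_ext'
      · apply biprod.hom_ext
        · simp [h2]
        · apply biprod.hom_ext <;> simp [h1, h2]
      · apply biprod.hom_ext
        · simp [h2]
        · apply biprod.hom_ext <;> simp [h1, h2]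

end Three

section Gen

variable {k : Type*} [Field k] {F : Type*} {K : Type w} [Field F] [Field K] [Algebra k F]
  [Algebra k K] [Algebra F K] [IsScalarTower k F K]
variable {C : Type u'} [Category.{v'} C] [Abelian C] [Linear k C] [FiniteDimensional F K]

theorem res_ind_three (h3 : finrank F K = 3) (X : ModObj k F C) :
    Nonempty ((resE k F K C).obj ((indE k F K C).obj X) ≅ X ⊞ (X ⊞ X)) := by
  classical
  let b := Module.finBasis F K
  refine iso_three h3 (fun j => indIncl X (b j)) (fun j => indProj X (b.coord j)) ?_ ?_ ?_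
  · intro j
    rw [indIncl_indProj]
    refine ModObj.hom_ext ?_
    change X.act (b.coord j (b j)) = 𝟙 _
    rw [Module.Basis.coord_apply, Module.Basis.repr_self, Finsupp.single_eq_same, ModObj.act_one]
  · intro j j' hjj
    rw [indIncl_indProj]
    refine ModObj.hom_ext ?_
    change X.act (b.coord j' (b j)) = 0
    rw [Module.Basis.coord_apply, Module.Basis.repr_self, Finsupp.single_eq_of_ne hjj.symm,
      ModObj.act_zero]
  · refine ModObj.hom_ext ?_
    refine ((ev (k := k) (C := C) (SingleObj.star F)).map_sum _ _).trans ?_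
    have h1 : ∀ j, tpr X K j = tdesc X (actFun K X (b.coord j)) := by
      intro j
      refine tens_ext_tin X K fun i => ?_
      rw [tin_tdesc]
      change _ = X.act (b.coord j (b i))
      rw [Module.Basis.coord_apply, Module.Basis.repr_self]
      by_cases hij : i = j
      · subst hij
        rw [tin_tpr_self, Finsupp.single_eq_same, ModObj.act_one]
      · rw [tin_tpr_ne X K hij, Finsupp.single_eq_of_ne (fun h => hij h.symm), ModObj.act_zero]
    refine Eq.trans (Finset.sum_congr rfl fun j _ => ?_) (tpr_tin_total X K)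
    change tdesc X (actFun K X (b.coord j)) ≫ tmk X (b j) = tpr X K j ≫ tin X K j
    rw [h1, tmk_basis]

/-- three copies of a form over F -/
theorem res_three (h3 : finrank F K = 3) {X : ModObj k F C} {V : ModObj k K C}
    (e : Nonempty ((indE k F K C).obj X ≅ V)) :
    Nonempty ((resE k F K C).obj V ≅ X ⊞ (X ⊞ X)) := by
  obtain ⟨e⟩ := e
  obtain ⟨e'⟩ := res_ind_three h3 X
  exact ⟨(resE k F K C).mapIso e.symm ≪≫ e'⟩

/-- a form is a retract of the restriction -/
theorem retract_res {X : ModObj k F C} {V : ModObj k K C}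
    (e : Nonempty ((indE k F K C).obj X ≅ V)) : Nonempty (Retract X ((resE k F K C).obj V)) := by
  obtain ⟨e⟩ := e
  obtain ⟨r⟩ := exists_retract_res_ind (K := K) X
  exact ⟨r.trans (Retract.ofIso ((resE k F K C).mapIso e))⟩

section ext

variable [HasExt.{w₁} (ModObj k F C)] [HasExt.{w₂} (ModObj k K C)] [IsGalois F K]

theorem acyc_res (V W : ModObj k K C) (h : ∀ g : K ≃ₐ[F] K, Acyc.{w₂} ((conj k C g).obj V) W) :
    Acyc.{w₁} ((resE k F K C).obj V) ((resE k F K C).obj W) := fun n hn =>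
  ext_res_subsingleton V W n fun g => h g n hn

end ext

theorem hom_zero_of_retract {D : Type*} [Category D] [Preadditive D] {X X' Y Y' : D}
    (r : Retract X X') (r' : Retract Y Y') (h : ∀ f : X' ⟶ Y', f = 0) (f : X ⟶ Y) : f = 0 := by
  have h1 := h (r.r ≫ f ≫ r'.i)
  have h2 : f = r.i ≫ (r.r ≫ f ≫ r'.i) ≫ r'.r := by simp
  rw [h2, h1, zero_comp, comp_zero]

section Endo

theorem not_isZero_pt {k : Type*} [Field k] {E : Type*} [Field E] [Algebra k E]
    {C : Type u'} [Category.{v'} C] [Abelian C] [Linear k C] {X : ModObj k E C}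
    (h : ¬ IsZero X) : ¬ IsZero X.pt := fun h0 => h ((LF.isZero_iff X).2 fun _ => h0)

/-- endomorphisms given by scalars: nonzero ones are isomorphisms -/
theorem isIso_of_act {k : Type*} [Field k] {E : Type*} [Field E] [Algebra k E]
    {C : Type u'} [Category.{v'} C] [Abelian C] [Linear k C] (X : ModObj k E C)
    (h : ∀ f : X ⟶ X, ∃ e : E, ModObj.homPt f = X.act e) (f : X ⟶ X) (hf : f ≠ 0) : IsIso f := by
  obtain ⟨e, he⟩ := h f
  have he0 : e ≠ 0 := by
    rintro rfl
    apply hf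
    refine ModObj.hom_ext ?_
    rw [he, ModObj.act_zero]
    rfl
  refine ⟨ModObj.homMk (X.act e⁻¹) (fun e' => X.act_comm e' _), ModObj.hom_ext ?_,
    ModObj.hom_ext ?_⟩
  · change ModObj.homPt f ≫ X.act e⁻¹ = 𝟙 _
    rw [he, ← ModObj.act_mul, mul_inv_cancel₀ he0, ModObj.act_one]
  · change X.act e⁻¹ ≫ ModObj.homPt f = 𝟙 _
    rw [he, ← ModObj.act_mul, inv_mul_cancel₀ he0, ModObj.act_one]

theorem finrank_of_act {k : Type*} [Field k] {E : Type*} [Field E] [Algebra k E]
    {C : Type u'} [Category.{v'} C] [Abelian C] [Linear k C] (X : ModObj k E C)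
    (h0 : ¬ IsZero X.pt) (h : ∀ f : X ⟶ X, ∃ e : E, ModObj.homPt f = X.act e) :
    finrank E (X ⟶ X) = 1 := by
  have h1 : 𝟙 X ≠ 0 := fun h1 => h0 (by
    rw [IsZero.iff_id_eq_zero]
    exact congrArg ModObj.homPt h1)
  refine finrank_eq_one (𝟙 X) h1 fun f => ?_
  obtain ⟨e, he⟩ := h f
  refine ⟨e, ModObj.hom_ext ?_⟩
  rw [ModObj.homPt_smul_id, he]

/-- the restriction of an object over K whose endomorphisms over F are the scalars of K -/
theorem finrank_res_of_act (V : ModObj k K C) (h0 : ¬ IsZero V.pt)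
    (h : ∀ f : (resE k F K C).obj V ⟶ (resE k F K C).obj V, ∃ x : K, ModObj.homPt f = V.act x) :
    finrank F ((resE k F K C).obj V ⟶ (resE k F K C).obj V) = finrank F K := by
  let φ : K →ₗ[F] ((resE k F K C).obj V ⟶ (resE k F K C).obj V) :=
    { toFun := fun x => actEnd V x
      map_add' := fun x y => ModObj.hom_ext (V.act_add x y)
      map_smul' := fun e x => ModObj.hom_ext (by
        change V.act (e • x) = V.act (algebraMap F K e) ≫ V.act x
        rw [Algebra.smul_def, ModObj.act_mul]) }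
  refine (LinearEquiv.finrank_eq (LinearEquiv.ofBijective φ ⟨?_, fun f => ?_⟩)).symm
  · rw [← LinearMap.ker_eq_bot, LinearMap.ker_eq_bot']
    intro x hx
    by_contra hx0
    apply h0
    rw [IsZero.iff_id_eq_zero]
    have h1 : V.act x = 0 := congrArg ModObj.homPt hx
    rw [← ModObj.act_one, ← mul_inv_cancel₀ hx0, ModObj.act_mul, h1, zero_comp]
  · obtain ⟨x, hx⟩ := h f
    exact ⟨x, ModObj.hom_ext hx.symm⟩

theorem isIso_res_of_act (V : ModObj k K C)
    (h : ∀ f : (resE k F K C).obj V ⟶ (resE k F K C).obj V, ∃ x : K, ModObj.homPt f = V.act x)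
    (f : (resE k F K C).obj V ⟶ (resE k F K C).obj V) (hf : f ≠ 0) : IsIso f := by
  obtain ⟨x, hx⟩ := h f
  have hx0 : x ≠ 0 := by
    rintro rfl
    apply hf
    refine ModObj.hom_ext ?_
    rw [hx, ModObj.act_zero]
    rfl
  have h1 : V.act x ≫ V.act x⁻¹ = 𝟙 V.pt := by
    rw [← ModObj.act_mul, mul_inv_cancel₀ hx0, ModObj.act_one]
  have h2 : V.act x⁻¹ ≫ V.act x = 𝟙 V.pt := by
    rw [← ModObj.act_mul, inv_mul_cancel₀ hx0, ModObj.act_one]
  let f' : V.pt ⟶ V.pt := ModObj.homPt (M := (resE k F K C).obj V) (N := (resE k F K C).obj V) f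
  have hx' : f' = V.act x := hx
  refine ⟨actEnd V x⁻¹, ModObj.hom_ext ?_, ModObj.hom_ext ?_⟩
  · change f' ≫ V.act x⁻¹ = 𝟙 V.pt
    rw [hx', h1]
  · change V.act x⁻¹ ≫ f' = 𝟙 V.pt
    rw [hx', h2]

end Endo

section Six

variable (F)

/-- conjugation over F of the objects of rank one and of the line bundles; the root 3 is
rational, the roots 0, 1, 2 are conjugate -/
structure ConjF (M : Finset (Fin 4) → ℤ → ModObj k K C) (O : ℤ → ModObj k K C) : Prop where
  r : ∀ g : K ≃ₐ[F] K, ∃ l : Fin 4, l ≠ 3 ∧ (l = 0 → g = 1) ∧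
    Nonempty ((conj k C g).obj (M {0} 0) ≅ M {l} 0)
  e : ∀ (g : K ≃ₐ[F] K) a, Nonempty ((conj k C g).obj (M ∅ a) ≅ M ∅ a)
  t : ∀ g : K ≃ₐ[F] K, Nonempty ((conj k C g).obj (M {3} 0) ≅ M {3} 0)
  o : ∀ (g : K ≃ₐ[F] K) j, Nonempty ((conj k C g).obj (O j) ≅ O j)

variable {F}

/-- the list over K, in reversed order; `l` is the root which is used -/
def ktl {D : Type*} (M : Finset (Fin 4) → ℤ → D) (O : ℤ → D) (l : Fin 4) : Fin 6 → D :=
  ![M ∅ 1, M {l} 0, M {3} 0, M ∅ 0, O (-1), O (-2)]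

theorem ktl_eq {D : Type*} (M : Finset (Fin 4) → ℤ → D) (O : ℤ → D) (l : Fin 4) (i : Fin 6) :
    ktl M O l i = tfl (fun x : Finset (Fin 4) × ℤ => M x.1 x.2) O l 0 i.rev := by
  fin_cases i <;> rfl

theorem exists_conj_ktl {M : Finset (Fin 4) → ℤ → ModObj k K C} {O : ℤ → ModObj k K C}
    (hc : ConjF F M O) (g : K ≃ₐ[F] K) : ∃ l : Fin 4, l ≠ 3 ∧ (l = 0 → g = 1) ∧
      ∀ i, Nonempty ((conj k C g).obj (ktl M O 0 i) ≅ ktl M O l i) := by
  obtain ⟨l, h1, h2, h3⟩ := hc.r g
  refine ⟨l, h1, h2, fun i => ?_⟩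
  fin_cases i
  exacts [hc.e g 1, h3, hc.t g, hc.e g 0, hc.o g (-1), hc.o g (-2)]

variable [HasExt.{w₂} (ModObj k K C)] {M : Finset (Fin 4) → ℤ → ModObj k K C}
  {O : ℤ → ModObj k K C} (T : Tab.{w₂} k (zact k K C) (fun x : Finset (Fin 4) × ℤ => M x.1 x.2) O)

include T

theorem acyc_ktl (l l' : Fin 4) (i j : Fin 6) : Acyc.{w₂} (ktl M O l i) (ktl M O l' j) := by
  rw [ktl_eq, ktl_eq]
  exact acyc_tfl T l l' 0 _ _

theorem hom_ktl {l l' : Fin 4} (hl : l ≠ 3) {i j : Fin 6} (hij : i < j)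
    (f : ktl M O l i ⟶ ktl M O l' j) : f = 0 := by
  have hd : (({l} : Finset (Fin 4)) \ {3}).card = 1 := by
    rw [Finset.sdiff_singleton_eq_erase, Finset.erase_eq_of_notMem (by simpa using hl.symm)]
    rfl
  have mm : ∀ (I : Finset (Fin 4)) (a : ℤ) (J : Finset (Fin 4)) (b : ℤ),
      b - a - ((I \ J).card : ℤ) < 0 → ∀ f : M I a ⟶ M J b, f = 0 := fun I a J b h =>
    T.mm0 (x := (I, a)) (y := (J, b)) h
  have mo : ∀ (I : Finset (Fin 4)) (a : ℤ) (j : ℤ), ∀ f : M I a ⟶ O j, f = 0 := fun I a j =>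
    (T.mo (I, a) j).hom
  have e1 : ∀ i : Fin 4, (({i} : Finset (Fin 4)) \ ∅).card = 1 := fun i => by simp
  fin_cases i <;> fin_cases j <;> first
    | exact absurd hij (by decide)
    | exact mo _ _ _ f
    | exact T.oo0 (by norm_num) f
    | (refine mm _ _ _ _ ?_ f; simp; done)
    | (refine mm _ _ _ _ ?_ f; rw [hd]; norm_num)

theorem hom_rt {l : Fin 4} (hl : l ≠ 0) (f : M {l} 0 ⟶ M {0} 0) : f = 0 := by
  refine T.mm0 (x := ({l}, 0)) (y := ({0}, 0)) ?_ f
  have hd : (({l} : Finset (Fin 4)) \ {0}).card = 1 := by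
    rw [Finset.sdiff_singleton_eq_erase, Finset.erase_eq_of_notMem (by simpa using hl.symm)]
    rfl
  simp [dg, hd]

theorem act_M (I : Finset (Fin 4)) (a : ℤ) (f : M I a ⟶ M I a) :
    ∃ x : K, ModObj.homPt f = (M I a).act x := by
  obtain ⟨c, hc⟩ := T.mm1' (I, a) f
  exact ⟨c, by rw [hc]; rfl⟩

theorem act_O (j : ℤ) (f : O j ⟶ O j) : ∃ x : K, ModObj.homPt f = (O j).act x := by
  obtain ⟨c, hc⟩ := T.oo1 j f
  exact ⟨c, by rw [hc]; rfl⟩

end Six

end Gen

end OrlNum
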