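import Pool.Agent.Work.MP_a6e60d_ag.BI.List

/-!
MP_a6e60d_ag, Theorem B, instantiation 7: the facts on the six objects over the quadratic field.
-/

open CategoryTheory Category Limits Module Abelian

set_option linter.unusedSectionVars false

attribute [-instance] CategoryTheory.catToReflQuiver

namespace OrlNum

open Orl Orl.LF Orl.Gal Orl.Q

universe w₁ w₂ w v' u'

attribute [local instance] Abelian.hasFiniteBiproducts

variable {k : Type*} [Field k] {F : Type*} {K : Type w} [Field F] [Field K] [Algebra k F]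
  [Algebra k K] [Algebra F K] [IsScalarTower k F K]
variable {C : Type u'} [Category.{v'} C] [Abelian C] [Linear k C] [FiniteDimensional F K]

variable (M : Finset (Fin 4) → ℤ → ModObj k K C) (O : ℤ → ModObj k K C) (X : ℤ → ModObj k F C)
  (Y : ModObj k F C) (Z : ℤ → ModObj k F C)

/-- forms over F of the F-rational objects over K -/
structure Forms : Prop where
  x : ∀ a, Nonempty ((indE k F K C).obj (X a) ≅ M ∅ a)
  y : Nonempty ((indE k F K C).obj Y ≅ M {3} 0)
  z : ∀ j, Nonempty ((indE k F K C).obj (Z j) ≅ O j)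

/-- the list over F -/
def tF : Fin 6 → ModObj k F C :=
  ![X 1, (resE k F K C).obj (M {0} 0), Y, X 0, Z (-1), Z (-2)]

variable {M O X Y Z} (fm : Forms M O X Y Z)

include fm

theorem retract_t (i : Fin 6) : Nonempty (Retract (tF M X Y Z i)
    ((resE k F K C).obj (ktl M O 0 i))) := by
  fin_cases i
  · exact retract_res (fm.x 1)
  · exact ⟨Retract.refl _⟩
  · exact retract_res fm.y
  · exact retract_res (fm.x 0)
  · exact retract_res (fm.z (-1))
  · exact retract_res (fm.z (-2))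

omit fm in
theorem act_of_form {V : ModObj k K C} (hV : ¬ IsZero V)
    (h : ∀ f : V ⟶ V, ∃ x : K, ModObj.homPt f = V.act x) {X : ModObj k F C}
    (e : Nonempty ((indE k F K C).obj X ≅ V)) :
    ¬ IsZero X.pt ∧ ∀ f : X ⟶ X, ∃ x : F, ModObj.homPt f = X.act x := by
  obtain ⟨e⟩ := e
  have h0 : ¬ IsZero X.pt := by
    refine not_isZero_pt fun h0 => hV ?_
    exact ((indE k F K C).map_isZero h0).of_iso e.symm
  refine ⟨h0, exists_act_of_ind (K := K) X h0 fun f => ?_⟩
  obtain ⟨x, hx⟩ := h (e.inv ≫ f ≫ e.hom)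
  refine ⟨x, ?_⟩
  have h1 : e.inv ≫ f ≫ e.hom = (zact k K C x).app V := ModObj.hom_ext hx
  have h2 : f = (zact k K C x).app ((indE k F K C).obj X) := by
    have h3 := (zact k K C x).naturality e.hom
    rw [← cancel_mono e.hom]
    refine Eq.trans ?_ h3
    rw [← h1]
    exact (e.hom_inv_id_assoc _).symm
  rw [h2]
  rfl

variable [HasExt.{w₂} (ModObj k K C)]
  (T : Tab.{w₂} k (zact k K C) (fun x : Finset (Fin 4) × ℤ => M x.1 x.2) O)

include T

/-- the honest forms -/
theorem act_t (i : Fin 6) (hi : i ≠ 1) : ¬ IsZero (tF M X Y Z i).pt ∧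
    ∀ f : tF M X Y Z i ⟶ tF M X Y Z i, ∃ x : F, ModObj.homPt f = (tF M X Y Z i).act x := by
  fin_cases i
  · exact act_of_form (T.ne (∅, 1)) (act_M T ∅ 1) (fm.x 1)
  · exact absurd rfl hi
  · exact act_of_form (T.ne ({3}, 0)) (act_M T {3} 0) fm.y
  · exact act_of_form (T.ne (∅, 0)) (act_M T ∅ 0) (fm.x 0)
  · exact act_of_form (T.one (-1)) (act_O T (-1)) (fm.z (-1))
  · exact act_of_form (T.one (-2)) (act_O T (-2)) (fm.z (-2))

theorem finrank_t (i : Fin 6) (hi : i ≠ 1) :
    finrank F (tF M X Y Z i ⟶ tF M X Y Z i) = 1 :=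
  finrank_of_act _ (act_t fm T i hi).1 (act_t fm T i hi).2

variable [IsGalois F K] (hc : ConjF F M O)

include hc

omit fm in
theorem act_res_one (f : (resE k F K C).obj (M {0} 0) ⟶ (resE k F K C).obj (M {0} 0)) :
    ∃ x : K, ModObj.homPt f = (M {0} 0).act x := by
  refine exists_act_of_hom_res (M {0} 0) (act_M T {0} 0) (fun g hg f => ?_) f
  obtain ⟨l, -, h1, ⟨e⟩⟩ := hc.r g
  have h2 : l ≠ 0 := fun h => hg (h1 h)
  have h3 := hom_rt T h2 (e.inv ≫ f)
  rw [← cancel_epi e.inv, h3, comp_zero]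

theorem isIso_t (i : Fin 6) (f : tF M X Y Z i ⟶ tF M X Y Z i) (hf : f ≠ 0) : IsIso f := by
  by_cases hi : i = 1
  · subst hi
    exact isIso_res_of_act (M {0} 0) (act_res_one T hc) f hf
  · exact isIso_of_act _ (act_t fm T i hi).2 f hf

omit fm in
theorem finrank_t_one (h3 : finrank F K = 3) : finrank F (tF M X Y Z 1 ⟶ tF M X Y Z 1) = 3 := by
  rw [← h3]
  exact finrank_res_of_act (M {0} 0) (not_isZero_pt (T.ne ({0}, 0))) (act_res_one T hc)

theorem hom_t {i j : Fin 6} (hij : i < j) (f : tF M X Y Z i ⟶ tF M X Y Z j) : f = 0 := by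
  obtain ⟨r⟩ := retract_t fm i
  obtain ⟨r'⟩ := retract_t fm j
  refine hom_zero_of_retract r r' (fun f => ?_) f
  refine hom_res_eq_zero _ _ (fun g f => ?_) f
  obtain ⟨l, hl, -, e⟩ := exists_conj_ktl hc g
  obtain ⟨e⟩ := e i
  rw [← cancel_epi e.inv, hom_ktl T hl hij (e.inv ≫ f), comp_zero]

theorem ext_t [HasExt.{w₁} (ModObj k F C)] (i j : Fin 6) {n : ℕ} (hn : 0 < n) :
    Subsingleton (Ext.{w₁} (tF M X Y Z i) (tF M X Y Z j) n) := by
  obtain ⟨r⟩ := retract_t fm i
  obtain ⟨r'⟩ := retract_t fm j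
  have h : Acyc.{w₁} ((resE k F K C).obj (ktl M O 0 i)) ((resE k F K C).obj (ktl M O 0 j)) := by
    refine acyc_res _ _ fun g => ?_
    obtain ⟨l, hl, -, e⟩ := exists_conj_ktl hc g
    obtain ⟨e⟩ := e i
    exact (acyc_ktl T l 0 i j).iso_left e
  exact ((h.of_retract_left r).of_retract_right r') n hn

end OrlNum
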